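import Pool.Agent.COSB.StmtsA

/-!
# Squad COSB (MP_0fc649_lc): row HMK
-/

set_option autoImplicit false

namespace Pool.Agent.COSB.H66

open Pool.Agent.PAR Pool.Agent.COS

/-- the order of the positions -/
theorem lt_pos {m n : ℕ} (k l : Fin (m * n)) : l < k ↔ l.divNat < k.divNat ∨
    (l.divNat = k.divNat ∧ l.modNat < k.modNat) := by
  have h1 := Nat.div_add_mod l.val n
  have h2 := Nat.div_add_mod k.val n
  have hn : 0 < n := by
    rcases Nat.eq_zero_or_pos n with h | h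
    · subst h
      exact absurd k.2 (by simp)
    · exact h
  have h3 := Nat.mod_lt l.val hn
  have h4 := Nat.mod_lt k.val hn
  simp only [Fin.lt_def, Fin.ext_iff, Fin.coe_divNat, Fin.coe_modNat]
  constructor
  · intro h
    rcases lt_trichotomy (l.val / n) (k.val / n) with h5 | h5 | h5
    · exact Or.inl h5
    · right
      refine ⟨h5, ?_⟩
      rw [h5] at h1
      omega
    · exfalso
      have := Nat.mul_le_mul_left n (Nat.succ_le_of_lt h5)
      rw [Nat.mul_succ] at this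
      omega
  · rintro (h5 | ⟨h5, h6⟩)
    · have := Nat.mul_le_mul_left n (Nat.succ_le_of_lt h5)
      rw [Nat.mul_succ] at this
      omega
    · rw [h5] at h1
      omega

/-- every pair is a position -/
theorem ex_pos {m n : ℕ} (a : Fin m) (b : Fin n) :
    ∃ l : Fin (m * n), l.divNat = a ∧ l.modNat = b :=
  ⟨finProdFinEquiv (a, b), congrArg Prod.fst (finProdFinEquiv.symm_apply_apply (a, b)),
    congrArg Prod.snd (finProdFinEquiv.symm_apply_apply (a, b))⟩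

/-- `(a, c)` is before `(i, j)` -/
def Bf {n : ℕ} (a c i j : Fin n) : Prop := a < i ∨ (a = i ∧ c < j)

/-- the divisibility of the sums -/
theorem sums {n : ℕ} (b : ℕ) (i j : Fin n) (D M : Fin n → Fin n → ℤ)
    (h0 : ∀ a c, (2 : ℤ) ^ b ∣ D a c) (h1 : ∀ a c, Bf a c i j → (2 : ℤ) ^ (b + 1) ∣ D a c)
    (h2 : ¬ (2 : ℤ) ^ (b + 1) ∣ D i j) (hM : ∀ l c, c < l → (2 : ℤ) ∣ M l c)
    (hM' : ∀ l, ¬ (2 : ℤ) ∣ M l l) :
    (∀ a c, (2 : ℤ) ^ b ∣ ∑ l, D a l * M l c) ∧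
      (∀ a c, Bf a c i j → (2 : ℤ) ^ (b + 1) ∣ ∑ l, D a l * M l c) ∧
        ¬ (2 : ℤ) ^ (b + 1) ∣ ∑ l, D i l * M l j := by
  refine ⟨fun a c => Finset.dvd_sum fun l _ => (h0 a l).mul_right _, fun a c hac =>
    Finset.dvd_sum fun l _ => ?_, fun h => ?_⟩
  · by_cases hl : Bf a l i j
    · exact (h1 a l hl).mul_right _
    · rw [pow_succ]
      refine mul_dvd_mul (h0 a l) (hM l c ?_)
      rcases hac with hac | ⟨hac, hcj⟩
      · exact absurd (Or.inl hac) hl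
      · exact hcj.trans_le (not_lt.1 fun h => hl (Or.inr ⟨hac, h⟩))
  · rw [← Finset.add_sum_erase _ _ (Finset.mem_univ j)] at h
    have hrest : (2 : ℤ) ^ (b + 1) ∣ ∑ l ∈ Finset.univ.erase j, D i l * M l j := by
      refine Finset.dvd_sum fun l hl => ?_
      have hne : l ≠ j := (Finset.mem_erase.1 hl).1
      rcases lt_or_gt_of_ne hne with h3 | h3
      · exact (h1 i l (Or.inr ⟨rfl, h3⟩)).mul_right _
      · rw [pow_succ]
        exact mul_dvd_mul (h0 i l) (hM l j h3)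
    have h4 := (dvd_add_left hrest).1 h
    obtain ⟨d, hd⟩ := h0 i j
    rw [hd, mul_assoc, pow_succ, mul_dvd_mul_iff_left (pow_ne_zero _ two_ne_zero)] at h4
    rcases Int.prime_two.dvd_mul.1 h4 with h5 | h5
    · refine h2 ?_
      rw [hd, pow_succ]
      exact mul_dvd_mul_left _ h5
    · exact hM' j h5

/-- **row HMK** -/
theorem hmk (h1 : DgtStmt) (h2 : RdkStmt) (h3 : COS.CrdStmt) : HmkStmt := by
  intro n k hk W hW hU t ht y hy
  obtain ⟨_, ⟨u, hu, rfl⟩, _, ⟨v, hv, rfl⟩, hag, hdiff⟩ := ht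
  obtain ⟨w, hw, rfl⟩ := hy
  obtain ⟨U, hUm, -⟩ := h3 n
  obtain ⟨-, -, -, ⟨π, hπ⟩, -, -⟩ := h2 n k hk
  have hw' : v * u⁻¹ * w ∈ W := hW v hv u hu w hw
  obtain ⟨m, hm⟩ : ∃ m : G2 n k, m = u⁻¹ * w := ⟨_, rfl⟩
  have hmU : IsUni (rd m.1) := by
    rw [← hπ, ← hUm, hm, map_mul, map_inv]
    exact U.mul_mem (U.inv_mem ((hUm _).2 (by rw [hπ]; exact hU u hu)))
      ((hUm _).2 (by rw [hπ]; exact hU w hw))
  obtain ⟨w', hww'⟩ : ∃ w' : G2 n k, w' = v * u⁻¹ * w := ⟨_, rfl⟩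
  rw [← hww'] at hw'
  obtain ⟨b, hb⟩ : ∃ b : Fin k, b = t.divNat := ⟨_, rfl⟩
  obtain ⟨i, hi⟩ : ∃ i : Fin n, i = t.modNat.divNat := ⟨_, rfl⟩
  obtain ⟨j, hj⟩ : ∃ j : Fin n, j = t.modNat.modNat := ⟨_, rfl⟩
  -- positions before `t`
  have hpos : ∀ s : Fin (k * (n * n)), s < t ↔ s.divNat < b ∨ (s.divNat = b ∧
      Bf s.modNat.divNat s.modNat.modNat i j) := by
    intro s
    rw [lt_pos t s, lt_pos t.modNat s.modNat, hb, hi, hj]
    rfl
  -- digits of `u`, `v`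
  have hdig : ∀ (a c : Fin n) (b' : Fin k), (b' < b ∨ (b' = b ∧ Bf a c i j)) →
      (v.1 a c).val.testBit b' = (u.1 a c).val.testBit b' := by
    intro a c b' h
    obtain ⟨r, hr1, hr2⟩ := ex_pos a c
    obtain ⟨s, hs1, hs2⟩ := ex_pos b' r
    have hs : s < t := by
      rw [hpos, hs1, hs2, hr1, hr2]
      exact h
    have h5 := hag s hs
    unfold crd at h5
    rw [hs1, hs2, hr1, hr2] at h5
    exact h5.symm
  let D : Fin n → Fin n → ℤ := fun a c => ((v.1 a c).val : ℤ) - ((u.1 a c).val : ℤ)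
  let M : Fin n → Fin n → ℤ := fun a c => ((m.1 a c).val : ℤ)
  have hbk : b.val + 1 ≤ k := b.2
  have d0 : ∀ a c, (2 : ℤ) ^ b.val ∣ D a c := by
    intro a c
    refine (h1 _ _ _).1 fun b' hb' => hdig a c ⟨b', by omega⟩ (Or.inl hb')
  have d1 : ∀ a c, Bf a c i j → (2 : ℤ) ^ (b.val + 1) ∣ D a c := by
    intro a c hac
    refine (h1 _ _ _).1 fun b' hb' => hdig a c ⟨b', by omega⟩ ?_
    rcases Nat.lt_succ_iff_lt_or_eq.1 hb' with h | h
    · exact Or.inl h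
    · exact Or.inr ⟨Fin.ext h, hac⟩
  have d2 : ¬ (2 : ℤ) ^ (b.val + 1) ∣ D i j := by
    intro h
    refine hdiff ?_
    unfold crd
    rw [← hb, ← hi, ← hj]
    exact ((h1 _ _ _).2 h b.val (Nat.lt_succ_self _)).symm
  have m0 : ∀ l c, c < l → (2 : ℤ) ∣ M l c := by
    intro l c hlc
    have h5 : ((m.1 l c).val : ZMod 2) = 0 := hmU.2 l c hlc
    rw [ZMod.natCast_eq_zero_iff] at h5
    exact Int.natCast_dvd_natCast.2 h5
  have m1 : ∀ l, ¬ (2 : ℤ) ∣ M l l := by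
    intro l h
    have h5 : ((m.1 l l).val : ZMod 2) = 1 := hmU.1 l
    have h6 : 2 ∣ (m.1 l l).val := Int.natCast_dvd_natCast.1 h
    rw [(ZMod.natCast_eq_zero_iff _ _).2 h6] at h5
    exact zero_ne_one h5
  obtain ⟨s0, s1, s2⟩ := sums b.val i j D M d0 d1 d2 m0 m1
  -- the new matrix
  have hk2 : ∀ a c, (2 : ℤ) ^ k ∣ ((w'.1 a c).val : ℤ) - ((w.1 a c).val : ℤ) -
      ∑ l, D a l * M l c := by
    intro a c
    have e1 : w'.1 = w.1 + (v.1 - u.1) * m.1 := by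
      have e2 : u.1 * m.1 = w.1 := by
        rw [← Units.val_mul, hm, mul_inv_cancel_left]
      have e3 : v.1 * m.1 = w'.1 := by
        rw [← Units.val_mul, hm, hww', mul_assoc]
      rw [sub_mul, e2, e3]
      abel
    have e4 : ((((w'.1 a c).val : ℤ) - ((w.1 a c).val : ℤ) - ∑ l, D a l * M l c : ℤ) :
        ZMod (2 ^ k)) = 0 := by
      have e5 : w'.1 a c = w.1 a c + ∑ l, (v.1 a l - u.1 a l) * m.1 l c := by
        rw [e1, Matrix.add_apply, Matrix.mul_apply]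
        rfl
      simp only [D, M]
      push_cast
      simp only [ZMod.natCast_zmod_val]
      rw [e5]
      ring
    have e6 := (ZMod.intCast_zmod_eq_zero_iff_dvd _ _).1 e4
    push_cast at e6
    exact e6
  have hsub : ∀ (e : ℕ), e ≤ k → ∀ a c, ((2 : ℤ) ^ e ∣ ((w'.1 a c).val : ℤ) - ((w.1 a c).val : ℤ) ↔
      (2 : ℤ) ^ e ∣ ∑ l, D a l * M l c) := by
    intro e he a c
    have h5 := (pow_dvd_pow (2 : ℤ) he).trans (hk2 a c)
    constructor
    · intro h6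
      have := dvd_sub h6 h5
      rwa [sub_sub_cancel] at this
    · intro h6
      have := dvd_add h5 h6
      rwa [sub_add_cancel] at this
  refine ⟨crd k w'.1, ⟨w', hw', rfl⟩, fun s hs => ?_, fun h => ?_⟩
  · unfold crd
    rcases (hpos s).1 hs with h5 | ⟨h5, h6⟩
    · exact ((h1 _ _ _).2 ((hsub b.val (by omega) _ _).2 (s0 _ _)) s.divNat.val h5).symm
    · refine ((h1 _ _ _).2 ((hsub (b.val + 1) hbk _ _).2 (s1 _ _ h6)) s.divNat.val ?_).symm
      rw [h5]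
      exact Nat.lt_succ_self _
  · refine s2 ((hsub (b.val + 1) hbk i j).1 ((h1 _ _ _).1 fun b' hb' => ?_))
    rcases Nat.lt_succ_iff_lt_or_eq.1 hb' with h5 | h5
    · exact (h1 _ _ _).2 ((hsub b.val (by omega) _ _).2 (s0 _ _)) b' h5
    · unfold crd at h
      rw [← hb, ← hi, ← hj] at h
      rw [h5]
      exact h.symm

end Pool.Agent.COSB.H66
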